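import Pool.Agent.Lib.MP_9e8926_ag_BP.Main

/-!
# MP_9e8926_ag: Frobenius volumes of singularities with Brieskorn-Pham leading form
-/

set_option autoImplicit false

namespace Pool.Agent.Results.MP_9e8926_ag.BrieskornPham

open BP MvPolynomial

/-- Let `A` be a finitely generated domain with an embedding `ι` into `ℂ`, `n ≥ 2`, `a_i ≥ 1` and
`f = ∑ c_i x_i^{a_i} + g ∈ A[x_0,…,x_n]` with `c_i ≠ 0`, where all monomials `x^m` of `g` satisfy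
`∑ m_i/a_i > 1`; let `b_i ∈ [0,1)` be rational, `ρ = ∑ (1-b_i)/a_i - 1`, and suppose that `ρ > 0` and
`ρ ≤ 2 (1-b_i)/a_i` for all `i`.  Let `X = (f = 0)`, of dimension `n`, `Δ = ∑ b_i div(x_i)` and
`V = ρ^n ∏ a_i`.
Then the normalized volume of `(X_ℂ, Δ)` at the origin is at most `V`, and the Frobenius volumes of
the reductions of `(X, Δ)` at all maximal ideals `μ` of `A` outside of a hypersurface `s = 0` differ
from `V` by at most `C / char (A/μ)`. -/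
theorem result (A : Type) [CommRing A] [IsDomain A] [Algebra.FiniteType ℤ A] (ι : A →+* ℂ)
    (hι : Function.Injective ι) (n : ℕ) (hn : 2 ≤ n) (a : Fin (n + 1) → ℕ) (ha : ∀ i, 1 ≤ a i)
    (c : Fin (n + 1) → A) (hc : ∀ i, c i ≠ 0) (b : Fin (n + 1) → ℚ)
    (hb : ∀ i, 0 ≤ b i ∧ b i < 1) (ρ : ℝ) (hρ : ρ = ∑ i, (1 - (b i : ℝ)) / (a i : ℝ) - 1)
    (h0 : 0 < ρ) (h1 : ∀ i, ρ ≤ 2 * ((1 - (b i : ℝ)) / (a i : ℝ)))
    (g : MvPolynomial (Fin (n + 1)) A) (hg : ∀ m ∈ g.support, 1 < ∑ i, (m i : ℝ) / (a i : ℝ))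
    (f : MvPolynomial (Fin (n + 1)) A) (hf : f = ∑ i, C (c i) * X i ^ a i + g)
    (V : ℝ) (hV : V = ρ ^ n * ∏ i, (a i : ℝ)) :
    volhat n (map ι f) b ≤ V ∧
    ∃ C : ℝ, ∃ s : A, s ≠ 0 ∧ ∀ μ : Ideal A, μ.IsMaximal → s ∉ μ → ∀ p : ℕ, CharP (A ⧸ μ) p →
      |Fvol p n (map (Ideal.Quotient.mk μ) f) b - V| ≤ C / p := by
  subst hf hV
  have h2 : ρ = rho a b := hρ
  rw [h2] at h0 h1 ⊢
  exact BP.main A ι hι hn a ha c hc b hb h0 h1 g hg

end Pool.Agent.Results.MP_9e8926_ag.BrieskornPham
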