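import Pool.Agent.Lib.MP_9e8926_ag_DP.Main

/-!
# MP_9e8926_ag: Frobenius volumes of hypersurface double points
-/

set_option autoImplicit false

namespace Pool.Agent.Results.MP_9e8926_ag.DoublePoints

open DP MvPolynomial

/-- Let `A` be a finitely generated domain with an embedding `ι` into `ℂ`, `r ≥ 3`, `N ≥ 0`, and let
`f = a₁ x₁² + ⋯ + a_r x_r² + g` with `a_i ≠ 0` and `g ∈ A[x₁,…,x_r,y₁,…,y_N]`; let `b_j ∈ [0,1)` be
rational.  Suppose that no monomial `x^α y^β` of `g` has `(|α|, β) = (2, 0)` and that all satisfy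
`(r-1) |α| + (r-2) ∑ β_j/(1-b_j) ≥ 2 (r-1)`.  (If `r ≥ 4` and all `b_j = 0` this holds for all `g`
of order at least 3, so that `f = 0` is, up to a linear change of coordinates, an arbitrary
hypersurface double point whose quadratic part has rank `r ≥ 4`.)
Let `X = (f = 0)`, of dimension `n = r + N - 1`, `Δ = ∑ b_j div(y_j)` and
`V = 2 n^n ((r-2)/(r-1))^(r-1) ∏ (1-b_j)`.
Then the normalized volume of `(X_ℂ, Δ)` at the origin is at most `V`, and the Frobenius volumes of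
the reductions of `(X, Δ)` at all maximal ideals `μ` of `A` outside of a hypersurface `c = 0` differ
from `V` by at most `C / char (A/μ)`. -/
theorem result (A : Type) [CommRing A] [IsDomain A] [Algebra.FiniteType ℤ A] (ι : A →+* ℂ)
    (hι : Function.Injective ι) (r N : ℕ) (hr : 3 ≤ r) (a : Fin r → A) (ha : ∀ i, a i ≠ 0)
    (b : Fin N → ℚ) (hb : ∀ j, 0 ≤ b j ∧ b j < 1) (g : MvPolynomial (Fin r ⊕ Fin N) A)
    (hg : ∀ m ∈ g.support, ¬ (∑ i, m (Sum.inl i) = 2 ∧ ∀ j, m (Sum.inr j) = 0) ∧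
      2 * ((r : ℝ) - 1) ≤ ((r : ℝ) - 1) * ∑ i, (m (Sum.inl i) : ℝ) +
        ((r : ℝ) - 2) * ∑ j, (m (Sum.inr j) : ℝ) / (1 - (b j : ℝ)))
    (f : MvPolynomial (Fin r ⊕ Fin N) A) (hf : f = ∑ i, C (a i) * X (Sum.inl i) ^ 2 + g)
    (n : ℕ) (hn : n + 1 = r + N) (V : ℝ)
    (hV : V = 2 * (n : ℝ) ^ n * (((r : ℝ) - 2) / ((r : ℝ) - 1)) ^ (r - 1) *
      ∏ j, (1 - (b j : ℝ))) :
    volhat n (map ι f) b ≤ V ∧
    ∃ C : ℝ, ∃ c : A, c ≠ 0 ∧ ∀ μ : Ideal A, μ.IsMaximal → c ∉ μ → ∀ p : ℕ, CharP (A ⧸ μ) p →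
      |Fvol p n (map (Ideal.Quotient.mk μ) f) b - V| ≤ C / p := by
  obtain rfl : n = r - 1 + N := by omega
  subst hf hV
  refine DP.main A ι hι hr a ha b hb g fun m hm => ⟨?_, ?_⟩
  · intro h
    rw [md, Prod.mk.injEq] at h
    exact (hg m hm).1 ⟨h.1, fun j => congrFun h.2 j⟩
  · have h := (hg m hm).2
    simp only [md]
    push_cast
    exact h

end Pool.Agent.Results.MP_9e8926_ag.DoublePoints
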