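import Pool.Agent.Lib.MP_9e8926_ag_U.AFinD

/-!
# MP_9e8926_ag: the limits of the Frobenius volumes of the reductions of a pair
-/

namespace Pool.Agent.Results.MP_9e8926_ag.FrobeniusVolumes

open FU MvPolynomial

/-- Let `A ⊆ ℂ` be a domain which is finitely generated over `ℤ`, let `X = V(J)` be a closed
subscheme of `𝔸^N` over `A` which contains the origin `x` and such that `X_ℂ` is integral of
dimension `n ≥ 1`, and let `Δ = ∑ c_j P_j`, where the `P_j` are ideals of `A[x_1, …, x_N]` which do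
not vanish on `X_ℂ`.  All limits are taken over the closed points of `Spec A` (or of `Spec B`) with
respect to the non-empty open subsets.
* The lower limit of the Frobenius volumes `Fvol(x_θ, X_θ, Δ_θ)` is equal to the infimum `Vlow` of
  `e(𝔞) (lim inf fpt(𝔞_ν))ⁿ` over all models of ideals `𝔞` of the local ring of `X_ℂ` at `x` which
  are primary to the maximal ideal.
* The upper limit is at most the infimum `Vup` of `e(𝔞) (lim sup fpt(𝔞_ν))ⁿ`.
* For every `v < Vlow` almost all closed points satisfy `v ≤ Fvol`, and for every `v > Vup` almost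
  all closed points satisfy `Fvol ≤ v`.
* If `fpt(𝔞_ν)` converges to `lam 𝔞` for every model `𝔞`, then the Frobenius volumes of the
  reductions converge to the infimum of `e(𝔞) (lam 𝔞)ⁿ`.  (If the pair is klt, `fpt(𝔞_ν)` converges
  to `lct(𝔞)` by Hara and Yoshida, and the infimum is the normalized volume by Liu.)
* All primary ideals of the local ring of `X_ℂ` at `x` have models. -/
theorem result {A : Type} [CommRing A] [IsDomain A] [Algebra.FiniteType ℤ A] (ι : A →+* ℂ)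
    (hι : Function.Injective ι) {N r n : ℕ} (hn : 1 ≤ n) (J : Ideal (MvPolynomial (Fin N) A))
    (hJ0 : J ≤ mX N A) (hJ : (bc ι J).IsPrime)
    (hdim : ringKrullDim (MvPolynomial (Fin N) ℂ ⧸ bc ι J) = n)
    (P : Fin r → Ideal (MvPolynomial (Fin N) A)) (hP : ∀ j, ¬ bc ι (P j) ≤ bc ι J)
    (c : Fin r → ℚ) :
    liminfPts (fun κ _ _ (θ : A →+* κ) => FvolRed n J P c κ θ) = Vlow n ι J P c ∧
    limsupPts (fun κ _ _ (θ : A →+* κ) => FvolRed n J P c κ θ) ≤ Vup n ι J P c ∧
    (∀ v < Vlow n ι J P c, Almost fun κ _ _ (θ : A →+* κ) => v ≤ FvolRed n J P c κ θ) ∧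
    (∀ v > Vup n ι J P c, Almost fun κ _ _ (θ : A →+* κ) => FvolRed n J P c κ θ ≤ v) ∧
    (∀ lam : Mod N ι → ℝ,
      (∀ 𝔞 : Mod N ι,
        TendstoPts (fun κ _ _ (ν : 𝔞.B →+* κ) => fptMod ι J P c 𝔞 κ ν) (lam 𝔞)) →
      TendstoPts (fun κ _ _ (θ : A →+* κ) => FvolRed n J P c κ θ)
        (sInf {v : ℝ | ∃ 𝔞 : Mod N ι,
          v = multAt n ℂ (bc ι J) (bc 𝔞.ψ 𝔞.I) * lam 𝔞 ^ n})) ∧
    HasMod ι J := by
  obtain ⟨h1, h2, h3, h4⟩ := FU.main ι hι hn J hJ0 hJ hdim P hP c
  exact ⟨h1, h2, h3, h4, fun lam hlam => main_lim ι hι hn J hJ0 hJ hdim P hP c lam hlam,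
    fun 𝔟 h𝔟 => exists_mod ι J hJ0 𝔟 h𝔟⟩

end Pool.Agent.Results.MP_9e8926_ag.FrobeniusVolumes
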