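import Pool.Agent.Lib.MP_9e8926_ag_FV.Claim
import Pool.Agent.Lib.MP_9e8926_ag_FV.Final

/-!
# MP_9e8926_ag: Frobenius volumes of klt surface pairs converge to the normalized volume
-/

namespace Pool.Agent.Results.MP_9e8926_ag.SurfacePairs

open FVC MvPolynomial Matrix

/-- Let `A` be a finitely generated domain with an embedding `ι` into `ℂ`, let `G ⊆ GL₂(A)` be a
finite group without pseudo-reflections, let `fᵢ` be non-zero elements of `A[x,y]^G` and let
`cᵢ ≥ 0` be rational numbers such that the surface pair `(ℂ²/G, ∑ cᵢ div fᵢ)` is klt at the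
origin.  Then the Frobenius volumes of the reductions at all maximal ideals `μ` of `A` outside of
a hypersurface `a = 0` differ from the normalized volume by at most `C / char (A/μ)`. -/
theorem result (A : Type) [CommRing A] [IsDomain A] [Algebra.FiniteType ℤ A] (ι : A →+* ℂ)
    (hι : Function.Injective ι) (G : Subgroup (GL (Fin 2) A)) [Finite G]
    (hG : ∀ σ ∈ G, σ ≠ 1 → ((σ : Matrix (Fin 2) (Fin 2) A) - 1).det ≠ 0) (r : ℕ)
    (f : Fin r → MvPolynomial (Fin 2) A) (hf : ∀ i, f i ≠ 0) (hfG : ∀ i, f i ∈ FVC.Inv G)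
    (c : Fin r → ℚ) (hc : ∀ i, 0 ≤ c i) (hklt : Klt (mapF ι f) c) :
    ∃ C : ℝ, ∃ a : A, a ≠ 0 ∧ ∀ μ : Ideal A, μ.IsMaximal → a ∉ μ → ∀ p : ℕ, CharP (A ⧸ μ) p →
      |Fvol p (mapG (Ideal.Quotient.mk μ) G) (mapF (Ideal.Quotient.mk μ) f) c -
        volhat (mapG ι G) (mapF ι f) c| ≤ C / p :=
  FV.main A ι hι G hG r f hf hfG c hc hklt

end Pool.Agent.Results.MP_9e8926_ag.SurfacePairs
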